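import Pool.Agent.Lib.MP_b399ad_co.Cx.Defs

/-!
# Arbitrarily many edge-disjoint copies
-/

set_option autoImplicit false

namespace EdgeUbiq

open V

/-- the ray from the root `c 0` through all cut vertices, of index `i` -/
def Rr (i k : ℕ) : V :=
  match k % 6 with
  | 0 => c (k / 6)
  | 1 => a (k / 6) (3 * i)
  | 2 => r (k / 6) (6 * i)
  | 3 => r (k / 6) (6 * i + 1)
  | 4 => r (k / 6) (6 * i + 2)
  | _ => a (k / 6) (3 * i + 1)

theorem Rr_cases (i k : ℕ) :
    (∃ m, k = 6 * m ∧ Rr i k = c m) ∨ (∃ m, k = 6 * m + 1 ∧ Rr i k = a m (3 * i)) ∨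
    (∃ m, k = 6 * m + 2 ∧ Rr i k = r m (6 * i)) ∨ (∃ m, k = 6 * m + 3 ∧ Rr i k = r m (6 * i + 1)) ∨
    (∃ m, k = 6 * m + 4 ∧ Rr i k = r m (6 * i + 2)) ∨
    (∃ m, k = 6 * m + 5 ∧ Rr i k = a m (3 * i + 1)) := by
  have h := Nat.div_add_mod k 6
  have h6 : k % 6 < 6 := Nat.mod_lt _ (by norm_num)
  unfold Rr
  generalize k % 6 = e at h h6
  generalize k / 6 = m at h
  interval_cases e
  · exact Or.inl ⟨m, by omega, rfl⟩
  · exact Or.inr (Or.inl ⟨m, by omega, rfl⟩)
  · exact Or.inr (Or.inr (Or.inl ⟨m, by omega, rfl⟩))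
  · exact Or.inr (Or.inr (Or.inr (Or.inl ⟨m, by omega, rfl⟩)))
  · exact Or.inr (Or.inr (Or.inr (Or.inr (Or.inl ⟨m, by omega, rfl⟩))))
  · exact Or.inr (Or.inr (Or.inr (Or.inr (Or.inr ⟨m, by omega, rfl⟩))))

theorem Rr_adj (i k : ℕ) : G.Adj (Rr i k) (Rr i (k + 1)) := by
  have h := Rr_cases i k
  have h' := Rr_cases i (k + 1)
  rcases h with ⟨m, hk, hR⟩ | ⟨m, hk, hR⟩ | ⟨m, hk, hR⟩ | ⟨m, hk, hR⟩ | ⟨m, hk, hR⟩ | ⟨m, hk, hR⟩
  · rcases h' with ⟨m', hk', hR'⟩ | ⟨m', hk', hR'⟩ | ⟨m', hk', hR'⟩ | ⟨m', hk', hR'⟩ |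
      ⟨m', hk', hR'⟩ | ⟨m', hk', hR'⟩ <;> first | (exfalso; omega) | skip
    obtain rfl : m' = m := by omega
    rw [hR, hR']
    exact Or.inr (Or.inl ⟨by omega, rfl⟩)
  · rcases h' with ⟨m', hk', hR'⟩ | ⟨m', hk', hR'⟩ | ⟨m', hk', hR'⟩ | ⟨m', hk', hR'⟩ |
      ⟨m', hk', hR'⟩ | ⟨m', hk', hR'⟩ <;> first | (exfalso; omega) | skip
    obtain rfl : m' = m := by omega
    rw [hR, hR']
    exact Or.inr ⟨rfl, by omega⟩
  · rcases h' with ⟨m', hk', hR'⟩ | ⟨m', hk', hR'⟩ | ⟨m', hk', hR'⟩ | ⟨m', hk', hR'⟩ |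
      ⟨m', hk', hR'⟩ | ⟨m', hk', hR'⟩ <;> first | (exfalso; omega) | skip
    obtain rfl : m' = m := by omega
    rw [hR, hR']
    exact Or.inl ⟨rfl, rfl⟩
  · rcases h' with ⟨m', hk', hR'⟩ | ⟨m', hk', hR'⟩ | ⟨m', hk', hR'⟩ | ⟨m', hk', hR'⟩ |
      ⟨m', hk', hR'⟩ | ⟨m', hk', hR'⟩ <;> first | (exfalso; omega) | skip
    obtain rfl : m' = m := by omega
    rw [hR, hR']
    exact Or.inl ⟨rfl, rfl⟩
  · rcases h' with ⟨m', hk', hR'⟩ | ⟨m', hk', hR'⟩ | ⟨m', hk', hR'⟩ | ⟨m', hk', hR'⟩ |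
      ⟨m', hk', hR'⟩ | ⟨m', hk', hR'⟩ <;> first | (exfalso; omega) | skip
    obtain rfl : m' = m := by omega
    rw [hR, hR']
    exact Or.inl ⟨rfl, by omega⟩
  · rcases h' with ⟨m', hk', hR'⟩ | ⟨m', hk', hR'⟩ | ⟨m', hk', hR'⟩ | ⟨m', hk', hR'⟩ |
      ⟨m', hk', hR'⟩ | ⟨m', hk', hR'⟩ <;> first | (exfalso; omega) | skip
    obtain rfl : m' = m + 1 := by omega
    rw [hR, hR']
    exact Or.inl (Or.inr ⟨by omega, rfl⟩)

/-- positive legs -/
def A (n i : ℕ) (b : Bool) : ℕ → V
  | 0 => w b i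
  | 1 => s b false i
  | k + 2 => match b, k with
    | false, k => Rr i k
    | true, 0 => y
    | true, 1 => a i (3 * n + 2)
    | true, k + 2 => r i (6 * n + 4 + k)

/-- negative legs -/
def B (i : ℕ) (b : Bool) : ℕ → V
  | 0 => s b true i
  | 1 => z b
  | k + 2 => p b i k

theorem A_adj (n i : ℕ) (b : Bool) (k : ℕ) : G.Adj (A n i b k) (A n i b (k + 1)) := by
  match b, k with
  | false, 0 => exact Or.inl (by simp [A, E])
  | true, 0 => exact Or.inl (by simp [A, E])
  | false, 1 => exact Or.inl (by simp [A, E, Rr])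
  | true, 1 => exact Or.inl (by simp [A, E])
  | false, k + 2 => exact Rr_adj i k
  | true, 2 => exact Or.inr (by simp [A, E])
  | true, 3 =>
    refine Or.inr ⟨rfl, ?_⟩
    show 6 * n + 4 + 0 = 2 * (3 * n + 2)
    omega
  | true, k + 4 => exact Or.inl ⟨rfl, by omega⟩

theorem B_adj (i : ℕ) (b : Bool) (k : ℕ) : G.Adj (B i b k) (B i b (k + 1)) := by
  match k with
  | 0 => exact Or.inl (by simp [B, E])
  | 1 => exact Or.inl (by simp [B, E])
  | k + 2 => exact Or.inl (by simp [B, E])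

/-- the copy of index `i` among `n` -/
def F (n i : ℕ) (x : Bool × ℤ) : V :=
  match x.2 with
  | Int.ofNat k => A n i x.1 k
  | Int.negSucc k => B i x.1 k

theorem F_succ (n i : ℕ) (b : Bool) (t : ℤ) : G.Adj (F n i (b, t)) (F n i (b, t + 1)) := by
  match t with
  | Int.ofNat k => exact A_adj n i b k
  | Int.negSucc 0 =>
    show G.Adj (B i b 0) (A n i b 0)
    exact Or.inr (by simp [A, B, E])
  | Int.negSucc (k + 1) =>
    have h : Int.negSucc (k + 1) + 1 = Int.negSucc k := by omega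
    rw [h]
    exact (B_adj i b k).symm

theorem F_hom (n i : ℕ) (x x' : Bool × ℤ) (h : HH.Adj x x') : G.Adj (F n i x) (F n i x') := by
  have key : ∀ x x' : Bool × ℤ, ((x.1 = x'.1 ∧ x.2 + 1 = x'.2) ∨ (x.1 ≠ x'.1 ∧ x.2 = 0 ∧ x'.2 = 0)) →
      G.Adj (F n i x) (F n i x') := by
    rintro ⟨b, t⟩ ⟨b', t'⟩ (⟨h1, h2⟩ | ⟨h1, h2, h3⟩)
    · simp only at h1 h2
      subst h1 h2
      exact F_succ n i b t
    · simp only at h1 h2 h3
      subst h2 h3
      cases b <;> cases b'
      · exact absurd rfl h1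
      · exact Or.inl (by simp [F, A, E])
      · exact Or.inr (by simp [F, A, E])
      · exact absurd rfl h1
  rw [SimpleGraph.fromRel_adj] at h
  rcases h.2 with h | h
  · exact key _ _ h
  · exact (key _ _ h).symm

/-- position of a vertex on the copy -/
def pos (n i : ℕ) : V → Bool × ℤ
  | w b _ => (b, 0)
  | s b d _ => (b, if d then -1 else 1)
  | z b => (b, -2)
  | p b _ k => (b, -3 - k)
  | y => (true, 2)
  | c m => (false, 2 + 6 * m)
  | a m j => if j = 3 * i then (false, 6 * m + 3) else if j = 3 * i + 1 then (false, 6 * m + 7)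
      else (true, 3)
  | r m k => if k = 6 * i then (false, 6 * m + 4) else if k = 6 * i + 1 then (false, 6 * m + 5)
      else if k = 6 * i + 2 then (false, 6 * m + 6) else (true, k - 6 * n)

theorem pos_F (n i : ℕ) (hi : i < n) (x : Bool × ℤ) : pos n i (F n i x) = x := by
  obtain ⟨b, t⟩ := x
  match b, t with
  | b, Int.negSucc 0 => cases b <;> simp [F, B, pos]
  | b, Int.negSucc 1 => cases b <;> simp [F, B, pos]
  | b, Int.negSucc (k + 2) =>
    simp only [F, B, pos]
    rw [Prod.mk.injEq]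
    exact ⟨rfl, by omega⟩
  | b, Int.ofNat 0 => cases b <;> simp [F, A, pos]
  | b, Int.ofNat 1 => cases b <;> simp [F, A, pos]
  | false, Int.ofNat (k + 2) =>
    have h := Rr_cases i k
    show pos n i (Rr i k) = _
    rcases h with ⟨m, hk, hR⟩ | ⟨m, hk, hR⟩ | ⟨m, hk, hR⟩ | ⟨m, hk, hR⟩ | ⟨m, hk, hR⟩ | ⟨m, hk, hR⟩ <;>
      rw [hR] <;> simp [pos] <;> omega
  | true, Int.ofNat 2 => simp [F, A, pos]
  | true, Int.ofNat 3 =>
    show pos n i (a i (3 * n + 2)) = _
    simp only [pos]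
    rw [if_neg (by omega), if_neg (by omega)]
    rfl
  | true, Int.ofNat (k + 4) =>
    show pos n i (r i (6 * n + 4 + k)) = _
    simp only [pos]
    rw [if_neg (by omega), if_neg (by omega), if_neg (by omega)]
    simp
    omega

theorem F_inj (n i : ℕ) (hi : i < n) : Function.Injective (F n i) :=
  Function.LeftInverse.injective (pos_F n i hi)

/-- index of the copy to which a vertex is private -/
def idx (n : ℕ) : V → Option ℕ
  | w _ i => some i
  | s _ _ i => some i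
  | z _ => none
  | p _ i _ => some i
  | y => none
  | c _ => none
  | a m j => if j < 3 * n then some (j / 3) else some m
  | r m k => if k < 6 * n then some (k / 6) else some m

theorem idx_F (n i : ℕ) (hi : i < n) (x : Bool × ℤ) :
    idx n (F n i x) = some i ∨ idx n (F n i x) = none := by
  obtain ⟨b, t⟩ := x
  match b, t with
  | b, Int.negSucc 0 => exact Or.inl rfl
  | b, Int.negSucc 1 => exact Or.inr rfl
  | b, Int.negSucc (k + 2) => exact Or.inl rfl
  | b, Int.ofNat 0 => exact Or.inl rfl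
  | b, Int.ofNat 1 => exact Or.inl rfl
  | false, Int.ofNat (k + 2) =>
    have h := Rr_cases i k
    show idx n (Rr i k) = _ ∨ idx n (Rr i k) = _
    rcases h with ⟨m, hk, hR⟩ | ⟨m, hk, hR⟩ | ⟨m, hk, hR⟩ | ⟨m, hk, hR⟩ | ⟨m, hk, hR⟩ | ⟨m, hk, hR⟩ <;>
      rw [hR]
    · exact Or.inr rfl
    · left
      simp only [idx]
      rw [if_pos (by omega)]
      congr 1
      omega
    · left
      simp only [idx]
      rw [if_pos (by omega)]
      congr 1
      omega
    · left
      simp only [idx]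
      rw [if_pos (by omega)]
      congr 1
      omega
    · left
      simp only [idx]
      rw [if_pos (by omega)]
      congr 1
      omega
    · left
      simp only [idx]
      rw [if_pos (by omega)]
      congr 1
      omega
  | true, Int.ofNat 2 => exact Or.inr rfl
  | true, Int.ofNat 3 =>
    left
    show idx n (a i (3 * n + 2)) = _
    simp only [idx]
    rw [if_neg (by omega)]
  | true, Int.ofNat (k + 4) =>
    left
    show idx n (r i (6 * n + 4 + k)) = _
    simp only [idx]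
    rw [if_neg (by omega)]

/-- two adjacent vertices are not both shared -/
theorem idx_none {n : ℕ} {P Q : V} (h : G.Adj P Q) (hP : idx n P = none) (hQ : idx n Q = none) :
    False := by
  have key : ∀ P Q : V, idx n P = none → idx n Q = none → ¬ E P Q := by
    intro P Q hP hQ
    cases P <;> cases Q <;> simp only [E, idx, reduceCtorEq] at hP hQ ⊢ <;>
      (try split_ifs at hP) <;> (try split_ifs at hQ) <;> simp_all
  exact h.elim (key P Q hP hQ) (key Q P hQ hP)

theorem mk_inj {X : Type*} {P Q : X} (h : Sym2.mk P = Sym2.mk Q) : P = Q := by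
  have h1 := congrFun h P
  rw [Sym2.eq_iff] at h1
  rcases h1 with ⟨e, -⟩ | ⟨-, e⟩
  · exact e
  · exact e

theorem copies (n : ℕ) : ∃ f : Fin n → (HH →g G),
    (∀ i, Function.Injective (f i)) ∧
      ∀ i j, i ≠ j → ∀ a b c d, HH.Adj a b → HH.Adj c d →
        Sym2.mk (f i a, f i b) ≠ Sym2.mk (f j c, f j d) := by
  refine ⟨fun i => ⟨F n i, fun {x x'} h => F_hom n i x x' h⟩, fun i => F_inj n i i.2, ?_⟩
  intro i j hij a b c d hab hcd heq
  have hab' : G.Adj (F n i a) (F n i b) := F_hom n i a b hab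
  have key : ∀ P Q P' Q' : V, G.Adj P Q → (idx n P = some i.1 ∨ idx n P = none) →
      (idx n Q = some i.1 ∨ idx n Q = none) → (idx n P' = some j.1 ∨ idx n P' = none) →
      (idx n Q' = some j.1 ∨ idx n Q' = none) → P = P' → Q = Q' → False := by
    intro P Q P' Q' hPQ h1 h2 h3 h4 e1 e2
    subst e1 e2
    have hne : i.1 ≠ j.1 := fun h => hij (Fin.ext h)
    have g1 : idx n P = none := by
      rcases h1 with h1 | h1
      · rcases h3 with h3 | h3
        · rw [h1] at h3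
          exact absurd (Option.some.inj h3) hne
        · exact h3
      · exact h1
    have g2 : idx n Q = none := by
      rcases h2 with h2 | h2
      · rcases h4 with h4 | h4
        · rw [h2] at h4
          exact absurd (Option.some.inj h4) hne
        · exact h4
      · exact h2
    exact idx_none hPQ g1 g2
  have heq' : Sym2.mk (F n i a, F n i b) = Sym2.mk (F n j c, F n j d) := heq
  have hp := mk_inj heq'
  rw [Prod.mk.injEq] at hp
  exact key _ _ _ _ hab' (idx_F n i i.2 a) (idx_F n i i.2 b) (idx_F n j j.2 c) (idx_F n j j.2 d)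
    hp.1 hp.2

end EdgeUbiq
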