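import Mathlib

/-!
# A graph with arbitrarily many, but not infinitely many, edge-disjoint copies of two double rays
joined by an edge: definitions
-/

set_option autoImplicit false

namespace EdgeUbiq

/-- vertices: centres `w`, subdivision vertices `s`, private rays `p`, two roots `z`, the root `y`,
the cut vertices `c`, the rays `r m`, and connecting vertices `a` -/
inductive V : Type
  | w (b : Bool) (i : ℕ) : V
  | s (b d : Bool) (i : ℕ) : V
  | p (b : Bool) (i k : ℕ) : V
  | z (b : Bool) : V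
  | y : V
  | c (n : ℕ) : V
  | r (m k : ℕ) : V
  | a (m j : ℕ) : V

open V

/-- the edges, in one direction -/
def E : V → V → Prop
  | w b i, w b' i' => b = false ∧ b' = true ∧ i = i'
  | w b i, s b' _ i' => b = b' ∧ i = i'
  | s b d _, c n => b = false ∧ d = false ∧ n = 0
  | s b d _, y => b = true ∧ d = false
  | s b d _, z b' => d = true ∧ b = b'
  | z b, p b' _ k => b = b' ∧ k = 0
  | p b i k, p b' i' k' => b = b' ∧ i = i' ∧ k' = k + 1
  | r m k, r m' k' => m = m' ∧ k' = k + 1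
  | r m k, a m' j => m = m' ∧ k = 2 * j
  | a m j, c n => (j % 3 = 0 ∧ n = m) ∨ (j % 3 = 1 ∧ n = m + 1)
  | a _ j, y => j % 3 = 2
  | _, _ => False

theorem E_irrefl (P : V) : ¬ E P P := by
  cases P <;> simp [E]

/-- the graph -/
def G : SimpleGraph V where
  Adj P Q := E P Q ∨ E Q P
  symm := ⟨fun _ _ h => h.symm⟩
  loopless := ⟨fun P h => E_irrefl P (h.elim id id)⟩

/-- two double rays joined by an edge -/
abbrev HH : SimpleGraph (Bool × ℤ) :=
  SimpleGraph.fromRel (fun x y : Bool × ℤ =>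
        (x.1 = y.1 ∧ x.2 + 1 = y.2) ∨ (x.1 ≠ y.1 ∧ x.2 = 0 ∧ y.2 = 0))

theorem adj_succ (b : Bool) (t : ℤ) : HH.Adj (b, t) (b, t + 1) := by
  rw [SimpleGraph.fromRel_adj]
  refine ⟨?_, Or.inl (Or.inl ⟨rfl, rfl⟩)⟩
  intro h
  have := congrArg Prod.snd h
  simp at this

theorem adj_centre (b b' : Bool) (h : b ≠ b') : HH.Adj (b, 0) (b', 0) := by
  rw [SimpleGraph.fromRel_adj]
  refine ⟨?_, Or.inl (Or.inr ⟨h, rfl, rfl⟩)⟩
  intro h'
  exact h (congrArg Prod.fst h')

end EdgeUbiq
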