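import Pool.Agent.Lib.MP_b399ad_co.Cx.Defs

/-!
# Rays in the chain of blocks
-/

set_option autoImplicit false

namespace EdgeUbiq

open V

/-- rays of the graph -/
def IsRay (ρ : ℕ → V) : Prop := Function.Injective ρ ∧ ∀ k, G.Adj (ρ k) (ρ (k + 1))

/-- the vertices of the chain -/
def Hp : V → Prop
  | c _ => True
  | r _ _ => True
  | a _ _ => True
  | _ => False

/-- the vertices inside block `m` -/
def inB (m : ℕ) : V → Prop
  | r m' _ => m' = m
  | a m' _ => m' = m
  | _ => False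

/-- the vertices before the cut vertex `c n` -/
def inM (n : ℕ) : V → Prop
  | c l => l < n
  | r m _ => m < n
  | a m _ => m < n
  | _ => False

/-- the vertices to the left of the edges of the ray of block `m` -/
def inL (m : ℕ) : V → Prop
  | c l => l ≤ m
  | r m' k => m' < m ∨ (m' = m ∧ k % 6 ≠ 2)
  | a m' j => m' < m ∨ (m' = m ∧ j % 3 ≠ 1)
  | _ => False

/-- the ray uses all edges of the ray of block `m` from some point on -/
def TailIn (ρ : ℕ → V) (m : ℕ) : Prop :=
  ∃ P, ∀ p, P ≤ p → ∃ k, ρ k = r m p ∧ ρ (k + 1) = r m (p + 1)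

/-- neighbours of `a m j` inside the block -/
theorem adj_a_inB {m j : ℕ} {Q : V} (h : G.Adj Q (a m j)) (hQ : inB m Q) : Q = r m (2 * j) := by
  rcases h with h | h <;> cases Q <;> simp only [E, inB] at h hQ
  rw [h.2, hQ]

theorem tail_r {ρ : ℕ → V} (hρ : IsRay ρ) {m K : ℕ} (h : ∀ k, K ≤ k → inB m (ρ k)) :
    ∀ k, K + 1 ≤ k → ∃ g, ρ k = r m g := by
  intro k hk
  have h1 := h k (by omega)
  match hP : ρ k, h1 with
  | r m' g, h1 =>
    have h2 : m' = m := h1
    exact ⟨g, by rw [h2]⟩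
  | a m' j, h1 =>
    exfalso
    have h2 : m' = m := h1
    subst h2
    have e1 : ρ (k - 1) = r m' (2 * j) := by
      apply adj_a_inB _ (h (k - 1) (by omega))
      have h3 := hρ.2 (k - 1)
      rw [Nat.sub_add_cancel (by omega), hP] at h3
      exact h3
    have e2 : ρ (k + 1) = r m' (2 * j) := by
      apply adj_a_inB _ (h (k + 1) (by omega))
      have h3 := hρ.2 k
      rw [hP] at h3
      exact h3.symm
    have h4 := hρ.1 (e1.trans e2.symm)
    omega

theorem tail_of_inB {ρ : ℕ → V} (hρ : IsRay ρ) {m K : ℕ} (h : ∀ k, K ≤ k → inB m (ρ k)) :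
    TailIn ρ m := by
  have h1 := tail_r hρ h
  have h2 : ∀ k, ∃ g, ρ (K + 1 + k) = r m g := fun k => h1 _ (by omega)
  choose g hg using h2
  have hinj : ∀ k l, g k = g l → k = l := by
    intro k l hkl
    have h3 : ρ (K + 1 + k) = ρ (K + 1 + l) := by rw [hg, hg, hkl]
    have h4 := hρ.1 h3
    omega
  have hstep : ∀ k, g (k + 1) = g k + 1 ∨ g k = g (k + 1) + 1 := by
    intro k
    have h3 := hρ.2 (K + 1 + k)
    have h5 : ρ (K + 1 + k + 1) = r m (g (k + 1)) := hg (k + 1)
    rw [hg k, h5] at h3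
    rcases h3 with h3 | h3
    · exact Or.inl h3.2
    · exact Or.inr h3.2
  have hup : ∃ k0, g (k0 + 1) = g k0 + 1 := by
    by_contra hno
    push Not at hno
    have hdown : ∀ k, g k + k = g 0 := by
      intro k
      induction k with
      | zero => rfl
      | succ k ih =>
        rcases hstep k with h3 | h3
        · exact absurd h3 (hno k)
        · omega
    have h4 := hdown (g 0 + 1)
    omega
  obtain ⟨k0, hk0⟩ := hup
  have hall : ∀ t, g (k0 + t) = g k0 + t ∧ g (k0 + t + 1) = g k0 + t + 1 := by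
    intro t
    induction t with
    | zero => exact ⟨rfl, hk0⟩
    | succ t ih =>
      refine ⟨ih.2, ?_⟩
      rcases hstep (k0 + t + 1) with h3 | h3
      · have h4 : g (k0 + (t + 1) + 1) = g (k0 + t + 1) + 1 := h3
        rw [h4, ih.2]
        ring
      · exfalso
        have h4 : g (k0 + t + 1 + 1) = g (k0 + t) := by omega
        have h5 := hinj _ _ h4
        omega
  refine ⟨g k0, fun p hp => ⟨K + 1 + (k0 + (p - g k0)), ?_, ?_⟩⟩
  · rw [hg, (hall _).1]
    congr 1
    omega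
  · have h6 : ρ (K + 1 + (k0 + (p - g k0)) + 1) = r m (g (k0 + (p - g k0) + 1)) :=
      hg (k0 + (p - g k0) + 1)
    rw [h6, (hall _).2]
    congr 1
    omega

theorem tail_of_no_c {ρ : ℕ → V} (hρ : IsRay ρ) {K : ℕ} (hH : ∀ k, K ≤ k → Hp (ρ k))
    (hc : ∀ k, K ≤ k → ∀ l, ρ k ≠ c l) : ∃ m, inB m (ρ K) ∧ TailIn ρ m := by
  have h0 : ∃ m, inB m (ρ K) := by
    have h1 := hH K le_rfl
    have h2 := hc K le_rfl
    match hP : ρ K, h1 with
    | c l, _ => exact absurd hP (h2 l)
    | r m g, _ => exact ⟨m, rfl⟩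
    | a m j, _ => exact ⟨m, rfl⟩
  obtain ⟨m, hm⟩ := h0
  refine ⟨m, hm, tail_of_inB hρ (K := K) ?_⟩
  intro k hk
  induction k, hk using Nat.le_induction with
  | base => exact hm
  | succ k hk ih =>
    have h1 := hρ.2 k
    have h2 := hH (k + 1) (by omega)
    have h3 := hc (k + 1) (by omega)
    revert h1 h2 h3 ih
    generalize ρ k = P
    generalize ρ (k + 1) = Q
    intro ih h1 h2 h3
    cases Q with
    | c l => exact absurd rfl (h3 l)
    | r m' g =>
      cases P <;> simp only [inB] at ih ⊢ <;> rcases h1 with h1 | h1 <;> simp only [E] at h1 <;> omega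
    | a m' g =>
      cases P <;> simp only [inB] at ih ⊢ <;> rcases h1 with h1 | h1 <;> simp only [E] at h1 <;> omega
    | _ => exact absurd h2 (by simp [Hp])

theorem visit_or_stay {ρ : ℕ → V} (hρ : IsRay ρ) (h0 : ρ 0 = c 0) (hH : ∀ k, Hp (ρ k)) {n : ℕ}
    (hn : 1 ≤ n) : (∃ k, ρ k = c n) ∨ ∀ k, inM n (ρ k) := by
  by_cases hex : ∃ k, ρ k = c n
  · exact Or.inl hex
  · right
    push Not at hex
    intro k
    induction k with
    | zero => rw [h0]; exact hn
    | succ k ih =>
      have h1 := hρ.2 k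
      have h2 := hH (k + 1)
      have h3 := hex (k + 1)
      revert h1 h2 h3 ih
      generalize ρ k = P
      generalize ρ (k + 1) = Q
      intro ih h1 h2 h3
      cases Q with
      | c l =>
        have h4 : l ≠ n := fun h => h3 (by rw [h])
        cases P <;> simp only [inM] at ih ⊢ <;> rcases h1 with h1 | h1 <;> simp only [E] at h1 <;> omega
      | r m' g =>
        cases P <;> simp only [inM] at ih ⊢ <;> rcases h1 with h1 | h1 <;> simp only [E] at h1 <;> omega
      | a m' g =>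
        cases P <;> simp only [inM] at ih ⊢ <;> rcases h1 with h1 | h1 <;> simp only [E] at h1 <;> omega
      | _ => exact absurd h2 (by simp [Hp])

theorem tail_of_stay {ρ : ℕ → V} (hρ : IsRay ρ) {n : ℕ} (h : ∀ k, inM n (ρ k)) :
    ∃ m, m < n ∧ TailIn ρ m := by
  have hfin : {k | ∃ l, l < n ∧ ρ k = c l}.Finite := by
    have h1 : (c '' (Set.Iio n)).Finite := (Set.finite_Iio n).image c
    refine (h1.preimage (hρ.1.injOn)).subset ?_
    rintro k ⟨l, hl, hk⟩
    exact ⟨l, hl, hk.symm⟩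
  obtain ⟨K, hK⟩ := hfin.bddAbove
  have hH : ∀ k, K + 1 ≤ k → Hp (ρ k) := by
    intro k _
    have h1 := h k
    revert h1
    generalize ρ k = P
    intro h1
    cases P <;> simp_all [inM, Hp]
  have hc : ∀ k, K + 1 ≤ k → ∀ l, ρ k ≠ c l := by
    intro k hk l hl
    have h1 := h k
    rw [hl] at h1
    have h2 : k ≤ K := hK ⟨l, h1, hl⟩
    omega
  obtain ⟨m, hm, ht⟩ := tail_of_no_c hρ hH hc
  refine ⟨m, ?_, ht⟩
  have h1 := h (K + 1)
  revert h1 hm
  generalize ρ (K + 1) = P
  intro hm h1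
  cases P <;> simp only [inB, inM] at hm h1 <;> omega

theorem crossing {ρ : ℕ → V} (hρ : IsRay ρ) (h0 : ρ 0 = c 0) (hH : ∀ k, Hp (ρ k)) {m : ℕ}
    (hv : ∃ k, ρ k = c (m + 1)) :
    ∃ k p, s(ρ k, ρ (k + 1)) = s(r m p, r m (p + 1)) := by
  by_contra hno
  push Not at hno
  have hall : ∀ k, inL m (ρ k) := by
    intro k
    induction k with
    | zero => rw [h0]; exact Nat.zero_le m
    | succ k ih =>
      have h1 := hρ.2 k
      have h2 := hH (k + 1)
      have h3 := hno k
      revert h1 h2 h3 ih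
      generalize ρ k = P
      generalize ρ (k + 1) = Q
      intro ih h1 h2 h3
      cases Q with
      | c l =>
        cases P <;> simp only [inL] at ih ⊢ <;> rcases h1 with h1 | h1 <;> simp only [E] at h1 <;> omega
      | r m' g =>
        cases P with
        | r m'' g' =>
          simp only [inL] at ih ⊢
          have h4 : m' ≠ m := by
            rintro rfl
            rcases h1 with h1 | h1 <;> simp only [E] at h1
            · obtain ⟨rfl, rfl⟩ := h1
              exact h3 g' rfl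
            · obtain ⟨rfl, rfl⟩ := h1
              exact h3 g (Sym2.eq_swap)
          rcases h1 with h1 | h1 <;> simp only [E] at h1 <;> omega
        | _ => simp only [inL] at ih ⊢ <;> rcases h1 with h1 | h1 <;> simp only [E] at h1 <;> omega
      | a m' g =>
        cases P <;> simp only [inL] at ih ⊢ <;> rcases h1 with h1 | h1 <;> simp only [E] at h1 <;> omega
      | _ => exact absurd h2 (by simp [Hp])
  obtain ⟨k, hk⟩ := hv
  have h1 := hall k
  rw [hk] at h1
  simp only [inL] at h1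
  omega

theorem key {R : ℕ → ℕ → V} (hR : ∀ i, IsRay (R i)) (hR0 : ∀ i, R i 0 = c 0)
    (hRH : ∀ i k, Hp (R i k))
    (hRR : ∀ i j, i ≠ j → ∀ k l, s(R i k, R i (k + 1)) ≠ s(R j l, R j (l + 1)))
    {m : ℕ} (hl : ∀ l, l < m → ∀ j, ¬ TailIn (R j) l) {ρ : ℕ → V} (hρ : TailIn ρ m) (i0 : ℕ)
    (hd : ∀ j, i0 ≠ j → ∀ k l, s(ρ k, ρ (k + 1)) ≠ s(R j l, R j (l + 1))) : False := by
  obtain ⟨P, hP⟩ := hρ
  have hno : ∀ j, i0 ≠ j → ¬ TailIn (R j) m := by
    rintro j hj ⟨P', hP'⟩
    obtain ⟨k, hk1, hk2⟩ := hP (max P P') (le_max_left _ _)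
    obtain ⟨l, hl1, hl2⟩ := hP' (max P P') (le_max_right _ _)
    apply hd j hj k l
    rw [hk1, hk2, hl1, hl2]
  have huse : ∀ j, i0 ≠ j → ∃ p, p < P ∧ ∃ k, s(R j k, R j (k + 1)) = s(r m p, r m (p + 1)) := by
    intro j hj
    have hv : ∃ k, R j k = c (m + 1) := by
      rcases visit_or_stay (hR j) (hR0 j) (hRH j) (n := m + 1) (by omega) with h | h
      · exact h
      · obtain ⟨l, hlm, ht⟩ := tail_of_stay (hR j) h
        exfalso
        rcases Nat.lt_or_ge l m with h1 | h1
        · exact hl l h1 j ht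
        · obtain rfl : l = m := by omega
          exact hno j hj ht
    obtain ⟨k, p, hkp⟩ := crossing (hR j) (hR0 j) (hRH j) hv
    refine ⟨p, ?_, k, hkp⟩
    by_contra hp
    obtain ⟨k', h1, h2⟩ := hP p (by omega)
    apply hd j hj k' k
    rw [h1, h2, hkp]
  have huse' : ∀ t : ℕ, ∃ p, p < P ∧ ∃ k, s(R (i0 + 1 + t) k, R (i0 + 1 + t) (k + 1)) =
      s(r m p, r m (p + 1)) := fun t => huse _ (by omega)
  choose q hq k hk using huse'
  have hinj : Function.Injective (fun t : ℕ => (⟨q t, hq t⟩ : Fin P)) := by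
    intro t t' htt
    have h1 : q t = q t' := congrArg Fin.val htt
    by_contra hne
    apply hRR (i0 + 1 + t) (i0 + 1 + t') (by omega) (k t) (k t')
    rw [hk, hk, h1]
  exact not_injective_infinite_finite _ hinj

theorem no_family {R T : ℕ → ℕ → V} (hR : ∀ i, IsRay (R i)) (hT : ∀ i, IsRay (T i))
    (hR0 : ∀ i, R i 0 = c 0) (hRH : ∀ i k, Hp (R i k)) (hTH : ∀ i k, Hp (T i (k + 1)))
    (hRT : ∀ i k l, R i k ≠ T i l)
    (hRR : ∀ i j, i ≠ j → ∀ k l, s(R i k, R i (k + 1)) ≠ s(R j l, R j (l + 1)))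
    (hTR : ∀ i j, i ≠ j → ∀ k l, s(T i k, T i (k + 1)) ≠ s(R j l, R j (l + 1))) : False := by
  have hno : ∀ m, ∀ j, ¬ TailIn (R j) m := by
    intro m
    induction m using Nat.strong_induction_on with
    | _ m ih =>
      intro j hj
      exact key hR hR0 hRH hRR ih hj j (fun j' hj' => hRR j j' hj')
  have hnoT : ∀ m, ∀ j, ¬ TailIn (T j) m := fun m j hj =>
    key hR hR0 hRH hRR (fun l _ => hno l) hj j (fun j' hj' => hTR j j' hj')
  have hex : ∃ k n, T 0 (k + 1) = c n := by
    by_contra hcon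
    push Not at hcon
    obtain ⟨m, -, hm⟩ := tail_of_no_c (hT 0) (K := 1)
      (fun k hk => by
        obtain ⟨k', rfl⟩ : ∃ k', k = k' + 1 := ⟨k - 1, by omega⟩
        exact hTH 0 k')
      (fun k hk l => by
        obtain ⟨k', rfl⟩ : ∃ k', k = k' + 1 := ⟨k - 1, by omega⟩
        exact hcon k' l)
    exact hnoT m 0 hm
  obtain ⟨k, n, hkn⟩ := hex
  have hn : 1 ≤ n := by
    by_contra h
    obtain rfl : n = 0 := by omega
    exact hRT 0 0 (k + 1) ((hR0 0).trans hkn.symm)
  rcases visit_or_stay (hR 0) (hR0 0) (hRH 0) hn with ⟨k', hk'⟩ | h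
  · exact hRT 0 k' (k + 1) (hk'.trans hkn.symm)
  · obtain ⟨m, -, hm⟩ := tail_of_stay (hR 0) h
    exact hno m 0 hm

end EdgeUbiq
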