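import Pool.Agent.Lib.MP_b399ad_co.Cx.Copies
import Pool.Agent.Lib.MP_b399ad_co.Cx.Rays

/-!
# The two rays of a copy
-/

set_option autoImplicit false

namespace EdgeUbiq

open V

/-- the roots -/
def root : Bool → Bool → V
  | false, false => c 0
  | true, false => y
  | b, true => z b

theorem nb_w {b : Bool} {i : ℕ} {Q : V} (h : G.Adj (w b i) Q) :
    Q = w (!b) i ∨ Q = s b false i ∨ Q = s b true i := by
  rcases h with h | h <;> cases Q <;> simp only [E] at h
  · obtain ⟨rfl, rfl, rfl⟩ := h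
    exact Or.inl rfl
  · rename_i b' d i'
    obtain ⟨rfl, rfl⟩ := h
    cases d
    · exact Or.inr (Or.inl rfl)
    · exact Or.inr (Or.inr rfl)
  · obtain ⟨rfl, rfl, rfl⟩ := h
    exact Or.inl rfl

theorem nb_s {b d : Bool} {i : ℕ} {Q : V} (h : G.Adj (s b d i) Q) :
    Q = w b i ∨ Q = root b d := by
  rcases h with h | h <;> cases Q <;> simp only [E] at h
  · obtain ⟨rfl, rfl⟩ := h
    cases b <;> exact Or.inr rfl
  · obtain ⟨rfl, rfl⟩ := h
    exact Or.inr rfl
  · obtain ⟨rfl, rfl, rfl⟩ := h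
    exact Or.inr rfl
  · obtain ⟨rfl, rfl⟩ := h
    exact Or.inl rfl

theorem nb_p {b : Bool} {i k : ℕ} {Q : V} (h : G.Adj (p b i k) Q) :
    Q = (if k = 0 then z b else p b i (k - 1)) ∨ Q = p b i (k + 1) := by
  rcases h with h | h <;> cases Q <;> simp only [E] at h
  · obtain ⟨rfl, rfl, rfl⟩ := h
    exact Or.inr rfl
  · obtain ⟨rfl, rfl, rfl⟩ := h
    left
    rw [if_neg (Nat.succ_ne_zero _)]
    rfl
  · obtain ⟨rfl, rfl⟩ := h
    exact Or.inl rfl

theorem nb_a {m j : ℕ} {Q : V} (h : G.Adj (a m j) Q) :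
    Q = r m (2 * j) ∨ Q = (if j % 3 = 0 then c m else if j % 3 = 1 then c (m + 1) else y) := by
  rcases h with h | h <;> cases Q <;> simp only [E] at h
  · right
    rw [if_neg (by omega), if_neg (by omega)]
  · right
    rcases h with ⟨h1, h2⟩ | ⟨h1, h2⟩
    · rw [if_pos h1, h2]
    · rw [if_neg (by omega), if_pos h1, h2]
  · left
    rw [h.2, h.1]

theorem nb_r {m k : ℕ} (hk : k % 2 = 1) {Q : V} (h : G.Adj (r m k) Q) :
    Q = r m (k - 1) ∨ Q = r m (k + 1) := by
  rcases h with h | h <;> cases Q <;> simp only [E] at h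
  · right
    rw [h.2, h.1]
  · omega
  · left
    rw [h.1, h.2]
    rfl

/-- possible branch vertices -/
def big : V → Prop
  | w _ _ => True
  | c _ => True
  | y => True
  | z _ => True
  | r _ k => k % 2 = 0
  | _ => False

theorem no_three {X : Type*} {A B Q1 Q2 Q3 : X} (h1 : Q1 = A ∨ Q1 = B) (h2 : Q2 = A ∨ Q2 = B)
    (h3 : Q3 = A ∨ Q3 = B) (n1 : Q1 ≠ Q2) (n2 : Q1 ≠ Q3) (n3 : Q2 ≠ Q3) : False := by
  rcases h1 with h1 | h1 <;> rcases h2 with h2 | h2 <;> rcases h3 with h3 | h3 <;>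
    simp_all

theorem big_of_three {P Q1 Q2 Q3 : V} (h1 : G.Adj P Q1) (h2 : G.Adj P Q2) (h3 : G.Adj P Q3)
    (n1 : Q1 ≠ Q2) (n2 : Q1 ≠ Q3) (n3 : Q2 ≠ Q3) : big P := by
  cases P with
  | s b d i => exact (no_three (nb_s h1) (nb_s h2) (nb_s h3) n1 n2 n3).elim
  | p b i k => exact (no_three (nb_p h1) (nb_p h2) (nb_p h3) n1 n2 n3).elim
  | a m j => exact (no_three (nb_a h1) (nb_a h2) (nb_a h3) n1 n2 n3).elim
  | r m k =>
    show k % 2 = 0
    by_contra hk
    have hk' : k % 2 = 1 := by omega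
    exact no_three (nb_r hk' h1) (nb_r hk' h2) (nb_r hk' h3) n1 n2 n3
  | _ => trivial

theorem adj_big {P Q : V} (hP : big P) (hQ : big Q) (h : G.Adj P Q) :
    ∃ b i, P = w b i ∧ Q = w (!b) i := by
  rcases h with h | h <;> cases P <;> cases Q <;> simp only [E, big] at h hP hQ
  · obtain ⟨rfl, rfl, rfl⟩ := h
    exact ⟨false, _, rfl, rfl⟩
  · omega
  · obtain ⟨rfl, rfl, rfl⟩ := h
    exact ⟨true, _, rfl, rfl⟩
  · omega

theorem adj_step (b : Bool) (t δ : ℤ) (hδ : δ = 1 ∨ δ = -1) : HH.Adj (b, t) (b, t + δ) := by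
  rcases hδ with rfl | rfl
  · exact adj_succ b t
  · have h := adj_succ b (t + -1)
    rw [neg_add_cancel_right] at h
    exact h.symm

theorem centre {f : Bool × ℤ → V} (hf : Function.Injective f)
    (hadj : ∀ x x', HH.Adj x x' → G.Adj (f x) (f x')) (b : Bool) : big (f (b, 0)) := by
  refine big_of_three (hadj _ _ (adj_step b 0 1 (Or.inl rfl))) (hadj _ _ (adj_step b 0 (-1) (Or.inr rfl)))
    (hadj _ _ (adj_centre b (!b) (by cases b <;> simp))) ?_ ?_ ?_
  · intro h
    have := hf h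
    simp at this
  · intro h
    have := hf h
    simp at this
  · intro h
    have := hf h
    simp at this

theorem legs {f : Bool × ℤ → V} (hf : Function.Injective f)
    (hadj : ∀ x x', HH.Adj x x' → G.Adj (f x) (f x')) {b β : Bool} {l : ℕ}
    (h0 : f (b, 0) = w β l) (h1 : f (!b, 0) = w (!β) l) :
    ∃ δ : ℤ, (δ = 1 ∨ δ = -1) ∧ f (b, 2 * δ) = root β false ∧ f (b, -(2 * δ)) = root β true := by
  have hne : ∀ t : ℤ, f (b, t) ≠ w (!β) l := by
    intro t ht
    rw [← h1] at ht
    have := hf ht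
    simp at this
  have hne0 : ∀ t : ℤ, t ≠ 0 → f (b, t) ≠ w β l := by
    intro t ht ht'
    rw [← h0] at ht'
    have := hf ht'
    simp at this
    exact ht this
  have hd : ∀ δ : ℤ, (δ = 1 ∨ δ = -1) → ∃ d, f (b, δ) = s β d l ∧ f (b, 2 * δ) = root β d := by
    intro δ hδ
    have h2 := hadj _ _ (adj_step b 0 δ hδ)
    rw [h0, zero_add] at h2
    have h3 : ∃ d, f (b, δ) = s β d l := by
      rcases nb_w h2 with h | h | h
      · exact absurd h (hne _)
      · exact ⟨_, h⟩
      · exact ⟨_, h⟩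
    obtain ⟨d, hd⟩ := h3
    refine ⟨d, hd, ?_⟩
    have h4 := hadj _ _ (adj_step b δ δ hδ)
    rw [hd, ← two_mul] at h4
    rcases nb_s h4 with h | h
    · exact absurd h (hne0 _ (by omega))
    · exact h
  obtain ⟨d1, h2, h3⟩ := hd 1 (Or.inl rfl)
  obtain ⟨d2, h4, h5⟩ := hd (-1) (Or.inr rfl)
  have hdd : d1 ≠ d2 := by
    rintro rfl
    have := hf (h2.trans h4.symm)
    simp at this
  cases d1 <;> cases d2
  · exact absurd rfl hdd
  · refine ⟨1, Or.inl rfl, h3, ?_⟩
    have e : (-(2 * 1) : ℤ) = 2 * -1 := by norm_num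
    rw [e]
    exact h5
  · refine ⟨-1, Or.inr rfl, h5, ?_⟩
    have e : (-(2 * -1) : ℤ) = 2 * 1 := by norm_num
    rw [e]
    exact h3
  · exact absurd rfl hdd

/-- the roots, as a predicate -/
def isRoot : V → Prop
  | c n => n = 0
  | y => True
  | z _ => True
  | _ => False

/-- the vertices of the centre of index `j` -/
def CP (j : ℕ) : V → Prop
  | w _ i => i = j
  | s _ _ i => i = j
  | _ => False

theorem step_CP {j : ℕ} {P Q : V} (hP : CP j P) (h : G.Adj P Q) (hQ : ¬ isRoot Q) : CP j Q := by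
  rcases h with h | h <;> cases P <;> cases Q <;> simp_all [E, CP, isRoot]

theorem step_H {P Q : V} (hP : Hp P) (hP' : ¬ isRoot P) (h : G.Adj P Q) (hQ : ¬ isRoot Q) :
    Hp Q := by
  rcases h with h | h <;> cases P <;> cases Q <;> simp_all [E, Hp, isRoot]

theorem first_step {P Q : V} (hP : P = c 0 ∨ P = y) (h : G.Adj P Q) (hQ : ¬ isRoot Q) :
    Hp Q ∨ ∃ j, CP j Q := by
  rcases hP with rfl | rfl <;> rcases h with h | h <;> cases Q <;> simp_all [E, Hp, isRoot, CP]

theorem CP_finite (j : ℕ) : {P | CP j P}.Finite := by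
  refine (Set.toFinite (({w false j, w true j, s false false j, s false true j, s true false j,
    s true true j} : Set V))).subset ?_
  intro P hP
  cases P with
  | w b i =>
    obtain rfl : i = j := hP
    cases b <;> simp
  | s b d i =>
    obtain rfl : i = j := hP
    cases b <;> cases d <;> simp
  | _ => exact absurd hP (by simp [CP])

theorem in_chain {ρ : ℕ → V} (hρ : IsRay ρ) (h0 : ρ 0 = c 0 ∨ ρ 0 = y)
    (hroot : ∀ k, ¬ isRoot (ρ (k + 1))) (k : ℕ) : Hp (ρ (k + 1)) := by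
  rcases first_step h0 (hρ.2 0) (hroot 0) with h | ⟨j, hj⟩
  · induction k with
    | zero => exact h
    | succ k ih => exact step_H ih (hroot k) (hρ.2 (k + 1)) (hroot (k + 1))
  · exfalso
    have hall : ∀ k, CP j (ρ (k + 1)) := by
      intro k
      induction k with
      | zero => exact hj
      | succ k ih => exact step_CP ih (hρ.2 (k + 1)) (hroot (k + 1))
    have hinf : {P | CP j P}.Infinite := by
      refine Set.infinite_of_injective_forall_mem (f := fun k => ρ (k + 1)) ?_ hall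
      intro k l hkl
      have := hρ.1 hkl
      omega
    exact hinf (CP_finite j)

/-- a leg of a copy, from the root on -/
def leg (b : Bool) (δ : ℤ) (k : ℕ) : Bool × ℤ := (b, 2 * δ + k * δ)

theorem leg_adj (b : Bool) {δ : ℤ} (hδ : δ = 1 ∨ δ = -1) (k : ℕ) :
    HH.Adj (leg b δ k) (leg b δ (k + 1)) := by
  have h := adj_step b (2 * δ + k * δ) δ hδ
  have e : leg b δ (k + 1) = (b, 2 * δ + k * δ + δ) := by
    unfold leg
    rw [Prod.mk.injEq]
    refine ⟨rfl, ?_⟩
    push_cast
    ring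
  rw [e]
  exact h

theorem leg_inj (b : Bool) {δ : ℤ} (hδ : δ = 1 ∨ δ = -1) : Function.Injective (leg b δ) := by
  intro k l h
  have h1 := congrArg Prod.snd h
  simp only [leg] at h1
  rcases hδ with rfl | rfl <;> omega

theorem extract_aux {f : Bool × ℤ → V} (hf : Function.Injective f)
    (hadj : ∀ x x', HH.Adj x x' → G.Adj (f x) (f x')) {b : Bool} {l : ℕ}
    (h0 : f (b, 0) = w false l) (h1 : f (!b, 0) = w true l) :
    ∃ u v : ℕ → Bool × ℤ, (∀ k, HH.Adj (u k) (u (k + 1))) ∧ (∀ k, HH.Adj (v k) (v (k + 1))) ∧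
      Function.Injective u ∧ Function.Injective v ∧ (∀ k l, u k ≠ v l) ∧ f (u 0) = c 0 ∧
      (∀ k, Hp (f (u k))) ∧ (∀ k, Hp (f (v (k + 1)))) := by
  obtain ⟨δ, hδ, e1, e2⟩ := legs hf hadj (β := false) h0 h1
  obtain ⟨ε, hε, e3, e4⟩ := legs hf hadj (b := !b) (β := true) h1 (by rw [Bool.not_not]; exact h0)
  have hbb : b ≠ !b := by cases b <;> simp
  have huv : ∀ k l, leg b δ k ≠ leg (!b) ε l := by
    intro k l h
    exact hbb (congrArg Prod.fst h)
  have hu0 : leg b δ 0 = (b, 2 * δ) := by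
    unfold leg
    simp
  have hv0 : leg (!b) ε 0 = (!b, 2 * ε) := by
    unfold leg
    simp
  -- the roots
  have hrootu : ∀ k, ¬ isRoot (f (leg b δ (k + 1))) := by
    intro k hk
    have hcase : ∀ x : Bool × ℤ, x = (b, 2 * δ) ∨ x = (b, -(2 * δ)) ∨ x = (!b, 2 * ε) ∨
        x = (!b, -(2 * ε)) → leg b δ (k + 1) ≠ x := by
      rintro x (rfl | rfl | rfl | rfl) h
      · have := congrArg Prod.snd h
        simp only [leg] at this
        rcases hδ with rfl | rfl <;> omega
      · have := congrArg Prod.snd h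
        simp only [leg] at this
        rcases hδ with rfl | rfl <;> omega
      · exact hbb (congrArg Prod.fst h)
      · exact hbb (congrArg Prod.fst h)
    cases hP : f (leg b δ (k + 1)) with
    | c n =>
      rw [hP] at hk
      obtain rfl : n = 0 := hk
      exact hcase _ (Or.inl rfl) (hf (hP.trans e1.symm))
    | y => exact hcase _ (Or.inr (Or.inr (Or.inl rfl))) (hf (hP.trans e3.symm))
    | z b' =>
      cases b'
      · exact hcase _ (Or.inr (Or.inl rfl)) (hf (hP.trans e2.symm))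
      · exact hcase _ (Or.inr (Or.inr (Or.inr rfl))) (hf (hP.trans e4.symm))
    | _ => rw [hP] at hk; exact hk
  have hrootv : ∀ k, ¬ isRoot (f (leg (!b) ε (k + 1))) := by
    intro k hk
    have hcase : ∀ x : Bool × ℤ, x = (b, 2 * δ) ∨ x = (b, -(2 * δ)) ∨ x = (!b, 2 * ε) ∨
        x = (!b, -(2 * ε)) → leg (!b) ε (k + 1) ≠ x := by
      rintro x (rfl | rfl | rfl | rfl) h
      · exact hbb (congrArg Prod.fst h).symm
      · exact hbb (congrArg Prod.fst h).symm
      · have := congrArg Prod.snd h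
        simp only [leg] at this
        rcases hε with rfl | rfl <;> omega
      · have := congrArg Prod.snd h
        simp only [leg] at this
        rcases hε with rfl | rfl <;> omega
    cases hP : f (leg (!b) ε (k + 1)) with
    | c n =>
      rw [hP] at hk
      obtain rfl : n = 0 := hk
      exact hcase _ (Or.inl rfl) (hf (hP.trans e1.symm))
    | y => exact hcase _ (Or.inr (Or.inr (Or.inl rfl))) (hf (hP.trans e3.symm))
    | z b' =>
      cases b'
      · exact hcase _ (Or.inr (Or.inl rfl)) (hf (hP.trans e2.symm))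
      · exact hcase _ (Or.inr (Or.inr (Or.inr rfl))) (hf (hP.trans e4.symm))
    | _ => rw [hP] at hk; exact hk
  have hru : IsRay (fun k => f (leg b δ k)) :=
    ⟨hf.comp (leg_inj b hδ), fun k => hadj _ _ (leg_adj b hδ k)⟩
  have hrv : IsRay (fun k => f (leg (!b) ε k)) :=
    ⟨hf.comp (leg_inj (!b) hε), fun k => hadj _ _ (leg_adj (!b) hε k)⟩
  have hu0' : f (leg b δ 0) = c 0 := by rw [hu0]; exact e1
  have hv0' : f (leg (!b) ε 0) = y := by rw [hv0]; exact e3
  refine ⟨leg b δ, leg (!b) ε, leg_adj b hδ, leg_adj (!b) hε, leg_inj b hδ, leg_inj (!b) hε, huv,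
    hu0', ?_, in_chain hrv (Or.inr hv0') hrootv⟩
  intro k
  cases k with
  | zero => rw [hu0']; trivial
  | succ k => exact in_chain hru (Or.inl hu0') hrootu k

theorem extract {f : Bool × ℤ → V} (hf : Function.Injective f)
    (hadj : ∀ x x', HH.Adj x x' → G.Adj (f x) (f x')) :
    ∃ u v : ℕ → Bool × ℤ, (∀ k, HH.Adj (u k) (u (k + 1))) ∧ (∀ k, HH.Adj (v k) (v (k + 1))) ∧
      Function.Injective u ∧ Function.Injective v ∧ (∀ k l, u k ≠ v l) ∧ f (u 0) = c 0 ∧
      (∀ k, Hp (f (u k))) ∧ (∀ k, Hp (f (v (k + 1)))) := by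
  obtain ⟨β, l, h1, h2⟩ := adj_big (centre hf hadj false) (centre hf hadj true)
    (hadj _ _ (adj_centre false true (by simp)))
  cases β
  · exact extract_aux hf hadj (b := false) h1 h2
  · exact extract_aux hf hadj (b := true) h2 h1

theorem no_infinite_family :
    ¬ ∃ f : ℕ → (HH →g G), (∀ i, Function.Injective (f i)) ∧
      ∀ i j, i ≠ j → ∀ a b c d, HH.Adj a b → HH.Adj c d →
        Sym2.mk (f i a, f i b) ≠ Sym2.mk (f j c, f j d) := by
  rintro ⟨f, hinj, hdis⟩
  have hadj : ∀ i x x', HH.Adj x x' → G.Adj (f i x) (f i x') := fun i x x' h => (f i).map_rel h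
  have hex := fun i => extract (hinj i) (hadj i)
  choose u v hu hv hui hvi huv hu0 huH hvH using hex
  have hedge : ∀ i j, i ≠ j → ∀ a b c d, HH.Adj a b → HH.Adj c d →
      s(f i a, f i b) ≠ s(f j c, f j d) := by
    intro i j hij a b c d hab hcd h
    rw [Sym2.eq_iff] at h
    rcases h with ⟨e1, e2⟩ | ⟨e1, e2⟩
    · apply hdis i j hij a b c d hab hcd
      rw [e1, e2]
    · apply hdis i j hij a b d c hab hcd.symm
      rw [e1, e2]
  refine no_family (R := fun i k => f i (u i k)) (T := fun i k => f i (v i k))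
    (fun i => ⟨(hinj i).comp (hui i), fun k => hadj i _ _ (hu i k)⟩)
    (fun i => ⟨(hinj i).comp (hvi i), fun k => hadj i _ _ (hv i k)⟩) hu0 huH hvH ?_ ?_ ?_
  · intro i k l h
    exact huv i k l (hinj i h)
  · intro i j hij k l
    exact hedge i j hij _ _ _ _ (hu i k) (hu j l)
  · intro i j hij k l
    exact hedge i j hij _ _ _ _ (hv i k) (hu j l)

end EdgeUbiq
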